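import Pool.Agent.MP_b64966_al.H65.LK
import Pool.Agent.MP_b64966_al.Main

namespace Pool.Agent.MP_b64966_al.H65

/-- The specialisation `q = 1/2`, `t = 0` of a positive word applied to the indicator function. -/
def U (n : ℕ) (w : List ℕ) : ℕ → ℕ → ℚ := TW (1 / 2) 0 n w (ind ℚ n)

theorem U_cons (n k : ℕ) (w : List ℕ) : U n (k :: w) = T (1 / 2) 0 n k (U n w) := rfl

theorem U_nonneg (n : ℕ) (w : List ℕ) : ∀ i j, 0 ≤ U n w i j := by
  induction w with
  | nil =>
    intro i j
    change 0 ≤ ind ℚ n i j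
    unfold ind
    split_ifs <;> norm_num
  | cons k w ih =>
    intro i j
    rw [U_cons]
    unfold T
    have h1 := ih (k + 1) j
    have h2 := ih k j
    have h3 := ih i k
    have h4 := ih i (k + 1)
    have h5 := ih i j
    simp only [zero_mul, add_zero]
    split_ifs <;> linarith

theorem U_nil {n s : ℕ} (hs : s + 1 < n) : U n [] s (s + 1) ≠ 0 := by
  change ind ℚ n s (s + 1) ≠ 0
  unfold ind
  rw [if_pos (by omega)]
  exact one_ne_zero

theorem U_head {n s : ℕ} (hs : s + 1 < n) (w : List ℕ) : U n (s :: w) s (s + 1) = 0 := by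
  rw [U_cons, T_a rfl rfl hs]
  simp

theorem TW_zero (n : ℕ) (w : List ℕ) : TW (1 / 2 : ℚ) 0 n w 0 = 0 := by
  induction w with
  | nil => rfl
  | cons k w ih =>
    simp only [TW, ih]
    exact map_zero (TL (1 / 2 : ℚ) 0 n k)

/-- All pairs inside `[0, m]` are dead except possibly those ending at `k`. -/
def Z (m k : ℕ) (u : ℕ → ℕ → ℚ) : Prop := ∀ i j, i < j → j ≤ m → j ≠ k → u i j = 0

theorem Z_step {n m k : ℕ} {u : ℕ → ℕ → ℚ} (h : Z m (k + 1) u) (hk : k + 1 ≤ m) (hm : m < n) :
    Z m k (T (1 / 2) 0 n k u) := by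
  intro i j hij hj hjk
  have hc : (j < k ∨ k + 1 < i) ∨ (i = k ∧ j = k + 1) ∨ (i = k ∧ k + 1 < j) ∨
      (i = k + 1 ∧ k + 1 < j) ∨ (i < k ∧ j = k + 1) ∨ (i < k ∧ k + 1 < j) := by omega
  rcases hc with hc | ⟨h1, h2⟩ | ⟨h1, h2⟩ | ⟨h1, h2⟩ | ⟨h1, h2⟩ | ⟨h1, h2⟩
  · rw [T_g (by omega)]
    exact h i j hij hj (by omega)
  · rw [T_a h1 h2 (by omega)]
    simp
  · rw [T_b h1 h2 (by omega), h (k + 1) j h2 hj (by omega)]
    simp
  · rw [T_c h1 h2 (by omega), h (k + 1) j h2 hj (by omega), h k j (by omega) hj (by omega)]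
    simp
  · rw [T_e h1 h2 (by omega), h i k h1 (by omega) (by omega)]
    simp
  · rw [T_f h1 h2 (by omega), h i j hij hj (by omega)]
    simp

theorem Z_down {n m : ℕ} (hm : m < n) (k : ℕ) : k ≤ m →
    (∃ c : List ℕ, (∀ a ∈ c, a + 1 < n) ∧ Z m k (U n c)) →
    ∃ c : List ℕ, (∀ a ∈ c, a + 1 < n) ∧ Z m 0 (U n c) := by
  induction k with
  | zero => exact fun _ h => h
  | succ k ih =>
    rintro hk ⟨c, hc, hZ⟩
    refine ih (by omega) ⟨k :: c, ?_, Z_step hZ hk hm⟩
    intro a ha
    rcases List.mem_cons.1 ha with rfl | ha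
    · omega
    · exact hc a ha

theorem Z_all {n : ℕ} (m : ℕ) : m < n →
    ∃ c : List ℕ, (∀ a ∈ c, a + 1 < n) ∧ Z m 0 (U n c) := by
  induction m with
  | zero => exact fun _ => ⟨[], by simp, fun i j h1 h2 _ => by omega⟩
  | succ m ih =>
    intro hm
    obtain ⟨c, hc, hZ⟩ := ih (by omega)
    exact Z_down hm (m + 1) le_rfl
      ⟨c, hc, fun i j h1 h2 h3 => hZ i j h1 (by omega) (by omega)⟩

theorem U_mem (n : ℕ) (w : List ℕ) : U n w ∈ W ℚ n := by
  induction w with
  | nil => exact ind_mem
  | cons k w ih => exact TL_mem _ ih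

theorem exists_kill {n : ℕ} (hn : 0 < n) : ∃ c : List ℕ, (∀ a ∈ c, a + 1 < n) ∧ U n c = 0 := by
  obtain ⟨c, hc, hZ⟩ := Z_all (n := n) (n - 1) (by omega)
  refine ⟨c, hc, ?_⟩
  funext i j
  by_cases h0 : j ≤ i ∨ n ≤ j
  · exact U_mem n c i j h0
  · exact hZ i j (by omega) (by omega) (by omega)

section Group
variable {G H : Type*} [Group G] [Group H] {n : ℕ} {s : ℕ → G} {ρ : G →* H}

/-- Hée's lemma: the vanishing of the coordinate of a simple root detects a left divisor. -/
theorem hee (hs : IsBraid (n - 1) s)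
    (hU : ∀ w w' : List ℕ, (∀ a ∈ w, a + 1 < n) → (∀ a ∈ w', a + 1 < n) →
      (w.map s).prod = (w'.map s).prod → U n w = U n w') (l : ℕ) :
    ∀ w : List ℕ, w.length = l → (∀ a ∈ w, a + 1 < n) → ∀ k, k + 1 < n → U n w k (k + 1) = 0 →
      ∃ w' : List ℕ, w'.length < l ∧ (∀ a ∈ w', a + 1 < n) ∧
        (w.map s).prod = s k * (w'.map s).prod := by
  induction l using Nat.strong_induction_on with
  | _ l ih =>
  intro w hl hw k hk h0
  match w, hl, hw, h0 with
  | [], _, _, h0 => exact absurd h0 (U_nil hk)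
  | t :: w1, hl, hw, h0 =>
    have ht : t + 1 < n := hw t (by simp)
    have hw1 : ∀ a ∈ w1, a + 1 < n := fun a ha => hw a (by simp [ha])
    have hl1 : w1.length + 1 = l := by simpa using hl
    rw [U_cons] at h0
    have hc : t = k ∨ (k + 2 ≤ t ∨ t + 2 ≤ k) ∨ t = k + 1 ∨ k = t + 1 := by omega
    rcases hc with rfl | hc | rfl | rfl
    · exact ⟨w1, by omega, hw1, by simp⟩
    · rw [T_g (by omega)] at h0
      obtain ⟨w2, h1, h2, h3⟩ := ih w1.length (by omega) w1 rfl hw1 k hk h0
      refine ⟨t :: w2, by simp; omega, ?_, ?_⟩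
      · intro a ha
        rcases List.mem_cons.1 ha with rfl | ha
        · exact ht
        · exact h2 a ha
      · have := (hs.commute (i := k) (j := t) (by omega) (by omega) hc).eq
        simp only [List.map_cons, List.prod_cons, h3, ← mul_assoc, this]
    · rw [T_d (by omega) rfl (by omega)] at h0
      have p1 := U_nonneg n w1 k (k + 1)
      have p2 := U_nonneg n w1 k (k + 1 + 1)
      have z1 : U n w1 k (k + 1) = 0 := by linarith
      have z2 : U n w1 k (k + 1 + 1) = 0 := by linarith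
      obtain ⟨w2, h1, h2, h3⟩ := ih w1.length (by omega) w1 rfl hw1 k hk z1
      have h4 : ∀ a ∈ k :: w2, a + 1 < n := by
        intro a ha
        rcases List.mem_cons.1 ha with rfl | ha
        · exact hk
        · exact h2 a ha
      rw [hU w1 (k :: w2) hw1 h4 (by simpa using h3), U_cons,
        T_b rfl (by omega) (by omega)] at z2
      simp only [zero_mul, add_zero] at z2
      obtain ⟨w3, h5, h6, h7⟩ := ih w2.length (by omega) w2 rfl h2 (k + 1) ht z2
      refine ⟨(k + 1) :: k :: w3, by simp; omega, ?_, ?_⟩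
      · intro a ha
        simp only [List.mem_cons] at ha
        rcases ha with rfl | rfl | ha
        · exact ht
        · exact hk
        · exact h6 a ha
      · have := hs.braid k (by omega)
        simp only [List.map_cons, List.prod_cons, h3, h7, ← mul_assoc, this]
    · rw [T_c rfl (by omega) (by omega)] at h0
      have p1 := U_nonneg n w1 t (t + 1 + 1)
      have p2 := U_nonneg n w1 (t + 1) (t + 1 + 1)
      have z1 : U n w1 (t + 1) (t + 1 + 1) = 0 := by linarith
      have z2 : U n w1 t (t + 1 + 1) = 0 := by linarith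
      obtain ⟨w2, h1, h2, h3⟩ := ih w1.length (by omega) w1 rfl hw1 (t + 1) hk z1
      have h4 : ∀ a ∈ (t + 1) :: w2, a + 1 < n := by
        intro a ha
        rcases List.mem_cons.1 ha with rfl | ha
        · exact hk
        · exact h2 a ha
      rw [hU w1 ((t + 1) :: w2) hw1 h4 (by simpa using h3), U_cons,
        T_e (by omega) rfl (by omega)] at z2
      simp only [zero_mul, add_zero] at z2
      obtain ⟨w3, h5, h6, h7⟩ := ih w2.length (by omega) w2 rfl h2 t ht z2
      refine ⟨t :: (t + 1) :: w3, by simp; omega, ?_, ?_⟩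
      · intro a ha
        simp only [List.mem_cons] at ha
        rcases ha with rfl | rfl | ha
        · exact ht
        · exact hk
        · exact h6 a ha
      · have := hs.braid t (by omega)
        simp only [List.map_cons, List.prod_cons, h3, h7, ← mul_assoc, this]

theorem inj_pos (hs : IsBraid (n - 1) s)
    (hU : ∀ w w' : List ℕ, (∀ a ∈ w, a + 1 < n) → (∀ a ∈ w', a + 1 < n) →
      ρ (w.map s).prod = ρ (w'.map s).prod → U n w = U n w') (w : List ℕ) :
    (∀ a ∈ w, a + 1 < n) → ∀ w' : List ℕ, (∀ a ∈ w', a + 1 < n) →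
      ρ (w.map s).prod = ρ (w'.map s).prod → (w.map s).prod = (w'.map s).prod := by
  induction w with
  | nil =>
    intro hw w' hw' h
    match w', hw', h with
    | [], _, _ => rfl
    | k :: w1, hw', h =>
      have hk : k + 1 < n := hw' k (by simp)
      have := U_nil hk
      rw [hU _ _ hw hw' h] at this
      exact absurd (U_head hk w1) this
  | cons k w1 ih =>
    intro hw w' hw' h
    have hk : k + 1 < n := hw k (by simp)
    have h0 := U_head hk w1
    rw [hU _ _ hw hw' h] at h0
    obtain ⟨w2, -, h2, h3⟩ := hee hs (fun a b ha hb hab => hU a b ha hb (congrArg ρ hab))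
      w'.length w' rfl hw' k hk h0
    rw [h3] at h ⊢
    simp only [List.map_cons, List.prod_cons, map_mul, mul_right_inj] at h ⊢
    exact ih (fun a ha => hw a (by simp [ha])) w2 h2 h

theorem inj_of (hn : 0 < n) (hs : IsBraid (n - 1) s)
    (hgen : ∀ N : Subgroup G, (∀ i < n - 1, s i ∈ N) → N = ⊤)
    (hU : ∀ w w' : List ℕ, (∀ a ∈ w, a + 1 < n) → (∀ a ∈ w', a + 1 < n) →
      ρ (w.map s).prod = ρ (w'.map s).prod → U n w = U n w') : Function.Injective ρ := by
  obtain ⟨c, hc, hc0⟩ := exists_kill hn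
  have happ : ∀ a b : List ℕ, (∀ x ∈ a, x + 1 < n) → (∀ x ∈ b, x + 1 < n) →
      ∀ x ∈ a ++ b, x + 1 < n := by
    intro a b ha hb x hx
    rcases List.mem_append.1 hx with hx | hx
    · exact ha x hx
    · exact hb x hx
  let P : G → Prop := fun g => ∃ a b : List ℕ, (∀ x ∈ a, x + 1 < n) ∧ (∀ x ∈ b, x + 1 < n) ∧
    g * (b.map s).prod = (a.map s).prod
  let N : Subgroup G :=
    { carrier := {g | ∀ x, P (g * x) ↔ P x}
      mul_mem' := fun {a b} ha hb x => by rw [mul_assoc, ha, hb]
      one_mem' := fun x => by rw [one_mul]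
      inv_mem' := fun {a} ha x => by rw [← ha, mul_inv_cancel_left] }
  have hN : N = ⊤ := by
    refine hgen N fun k hk x => ⟨?_, ?_⟩
    · rintro ⟨a, b, ha, hb, hab⟩
      have h0 : U n (a ++ c) k (k + 1) = 0 := by
        have : U n (a ++ c) = TW (1 / 2) 0 n a (U n c) := TW_append a c
        rw [this, hc0, TW_zero]
        rfl
      obtain ⟨a', -, h2, h3⟩ := hee hs (fun a b ha hb hab => hU a b ha hb (congrArg ρ hab))
        _ (a ++ c) rfl (happ a c ha hc) k (by omega) h0
      refine ⟨a', b ++ c, h2, happ b c hb hc, ?_⟩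
      simp only [List.map_append, List.prod_append] at h3 ⊢
      rw [← hab, mul_assoc, mul_assoc] at h3
      exact mul_left_cancel h3
    · rintro ⟨a, b, ha, hb, hab⟩
      refine ⟨k :: a, b, ?_, hb, ?_⟩
      · intro y hy
        rcases List.mem_cons.1 hy with rfl | hy
        · omega
        · exact ha y hy
      · rw [List.map_cons, List.prod_cons, mul_assoc, hab]
  rw [injective_iff_map_eq_one]
  intro g hg
  have h1 : g ∈ N := hN ▸ Subgroup.mem_top g
  obtain ⟨a, b, ha, hb, hab⟩ := (h1 1).2 ⟨[], [], by simp, by simp, by simp⟩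
  rw [mul_one] at hab
  have h2 : ρ (b.map s).prod = ρ (a.map s).prod := by rw [← hab, map_mul, hg, one_mul]
  rw [← inj_pos hs hU b hb a ha h2] at hab
  simpa using hab

end Group

open Polynomial in
/-- Krammer's theorem: the Lawrence-Krammer representation over any field containing `ℚ[X]` is
faithful. -/
theorem krammer (n : ℕ) (hn : 0 < n) (K : Type*) [Field K] (φ : ℚ[X] →+* K)
    (hφ : Function.Injective φ) :
    ∃ ρ : BraidGroup n →* GL (Fin (n.choose 2)) K, Function.Injective ρ := by
  have : FiniteDimensional K (W K n) := finDim_W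
  have hq : φ (C (1 / 2)) ≠ 0 := by
    rw [map_ne_zero_iff φ hφ, C_ne_zero]
    norm_num
  have ht : φ X ≠ 0 := by
    rw [map_ne_zero_iff φ hφ]
    exact X_ne_zero
  let σ : ℕ → (Module.End K (W K n))ˣ := fun k =>
    if h : k + 1 < n then (S_isUnit hq ht h).unit else 1
  have hσ : ∀ k, k + 1 < n → (σ k : Module.End K (W K n)) = S (φ (C (1 / 2))) (φ X) n k := by
    intro k hk
    simp only [σ, dif_pos hk, IsUnit.unit_spec]
  have hb : IsBraid (n - 1) σ := by
    constructor
    · intro i hi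
      apply Units.ext
      simp only [Units.val_mul, hσ i (by omega), hσ (i + 1) (by omega)]
      exact S_braid.braid i hi
    · intro i j hij hj
      apply Units.ext
      simp only [Units.val_mul, hσ i (by omega), hσ j (by omega)]
      exact S_braid.comm i j hij hj
  obtain ⟨ρ, hρ⟩ := exists_hom n hb
  have hw : ∀ w : List ℕ, (∀ a ∈ w, a + 1 < n) →
      (ρ (w.map (gen n)).prod : Module.End K (W K n)) =
        (w.map (S (φ (C (1 / 2))) (φ X) n)).prod := by
    intro w
    induction w with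
    | nil => intro _; simp
    | cons k w ih =>
      intro h
      have hk : k + 1 < n := h k (by simp)
      simp only [List.map_cons, List.prod_cons, map_mul, Units.val_mul]
      rw [ih fun a ha => h a (by simp [ha]), hρ k (by omega), hσ k hk]
  have hinj : Function.Injective ρ := by
    refine inj_of hn (gen_braid n) (gen_top n) fun w w' h h' e => ?_
    have e1 : TW (φ (C (1 / 2))) (φ X) n w (ind K n) = TW (φ (C (1 / 2))) (φ X) n w' (ind K n) := by
      have a1 := S_prod (q := φ (C (1 / 2))) (t := φ X) w ⟨ind K n, ind_mem⟩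
      have a2 := S_prod (q := φ (C (1 / 2))) (t := φ X) w' ⟨ind K n, ind_mem⟩
      rw [← hw w h] at a1
      rw [← hw w' h', ← e] at a2
      exact a1.symm.trans a2
    rw [← ind_map φ, ← TW_map, ← TW_map] at e1
    have e2 : TW (C (1 / 2)) X n w (ind ℚ[X] n) = TW (C (1 / 2)) X n w' (ind ℚ[X] n) := by
      funext i j
      exact hφ (congrFun (congrFun e1 i) j)
    have a1 := TW_map (q := C (1 / 2 : ℚ)) (t := X) (n := n) (u := ind ℚ[X] n) (evalRingHom 0) w
    have a2 := TW_map (q := C (1 / 2 : ℚ)) (t := X) (n := n) (u := ind ℚ[X] n) (evalRingHom 0) w'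
    rw [ind_map] at a1 a2
    simp only [coe_evalRingHom, eval_C, eval_X] at a1 a2
    unfold U
    rw [← a1, ← a2, e2]
  let b := Module.finBasisOfFinrankEq K (W K n) (finrank_W (K := K) (n := n))
  let e := Units.mapEquiv (LinearMap.toMatrixAlgEquiv b).toMulEquiv
  exact ⟨e.toMonoidHom.comp ρ, e.injective.comp hinj⟩

end Pool.Agent.MP_b64966_al.H65
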