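import Pool.Agent.MP_b64966_al.Braid

namespace Pool.Agent.MP_b64966_al.H65

section Ring
variable {R : Type*} [CommRing R]

/-- The (dual) Lawrence-Krammer operator of the generator `k` on functions of pairs `i < j < n`. -/
def T (q t : R) (n k : ℕ) (u : ℕ → ℕ → R) : ℕ → ℕ → R := fun i j =>
  if i < j ∧ j < n then
    if i = k then
      (if j = k + 1 then t * q ^ 2 * u k (k + 1) else u (k + 1) j + t * q * (q - 1) * u k (k + 1))
    else if i = k + 1 then q * u k j + (1 - q) * u (k + 1) j
    else if j = k then (1 - q) * u i k + q * u i (k + 1)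
    else if j = k + 1 then u i k + t * q * (q - 1) * u k (k + 1)
    else if i < k ∧ k + 1 < j then u i j + t * (q - 1) ^ 2 * u k (k + 1)
    else u i j
  else u i j

variable {q t : R} {n k i j : ℕ} {u : ℕ → ℕ → R}

theorem T_a (h1 : i = k) (h2 : j = k + 1) (h3 : j < n) :
    T q t n k u i j = t * q ^ 2 * u k (k + 1) := by
  unfold T
  rw [if_pos (by omega), if_pos h1, if_pos h2]

theorem T_b (h1 : i = k) (h2 : k + 1 < j) (h3 : j < n) :
    T q t n k u i j = u (k + 1) j + t * q * (q - 1) * u k (k + 1) := by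
  unfold T
  rw [if_pos (by omega), if_pos h1, if_neg (by omega)]

theorem T_c (h1 : i = k + 1) (h2 : k + 1 < j) (h3 : j < n) :
    T q t n k u i j = q * u k j + (1 - q) * u (k + 1) j := by
  unfold T
  rw [if_pos (by omega), if_neg (by omega), if_pos h1]

theorem T_d (h1 : i < k) (h2 : j = k) (h3 : j < n) :
    T q t n k u i j = (1 - q) * u i k + q * u i (k + 1) := by
  unfold T
  rw [if_pos (by omega), if_neg (by omega), if_neg (by omega), if_pos h2]

theorem T_e (h1 : i < k) (h2 : j = k + 1) (h3 : j < n) :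
    T q t n k u i j = u i k + t * q * (q - 1) * u k (k + 1) := by
  unfold T
  rw [if_pos (by omega), if_neg (by omega), if_neg (by omega), if_neg (by omega), if_pos h2]

theorem T_f (h1 : i < k) (h2 : k + 1 < j) (h3 : j < n) :
    T q t n k u i j = u i j + t * (q - 1) ^ 2 * u k (k + 1) := by
  unfold T
  rw [if_pos (by omega), if_neg (by omega), if_neg (by omega), if_neg (by omega),
    if_neg (by omega), if_pos ⟨h1, h2⟩]

theorem T_g (h : j < k ∨ k + 1 < i ∨ j ≤ i ∨ n ≤ j) : T q t n k u i j = u i j := by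
  unfold T
  by_cases h0 : i < j ∧ j < n
  · rw [if_pos h0, if_neg (by omega), if_neg (by omega), if_neg (by omega),
      if_neg (by omega), if_neg (by omega)]
  · rw [if_neg h0]

theorem T_braid (hk : k + 2 < n) :
    T q t n k (T q t n (k + 1) (T q t n k u)) =
      T q t n (k + 1) (T q t n k (T q t n (k + 1) u)) := by
  funext i j
  by_cases h0 : j ≤ i ∨ n ≤ j
  · simp (disch := omega) only [T_g]
  have hi : i < k ∨ i = k ∨ i = k + 1 ∨ i = k + 2 ∨ k + 2 < i := by omega
  have hj : j < k ∨ j = k ∨ j = k + 1 ∨ j = k + 2 ∨ k + 2 < j := by omega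
  rcases hi with hi | hi | hi | hi | hi <;> rcases hj with hj | hj | hj | hj | hj <;>
    first
    | (exfalso; omega)
    | (simp (disch := omega) only [T_a, T_b, T_c, T_d, T_e, T_f, T_g]; done)
    | (simp (disch := omega) only [T_a, T_b, T_c, T_d, T_e, T_f, T_g]; ring)

theorem T_comm {l : ℕ} (hk : k + 2 ≤ l) (hl : l + 1 < n) :
    T q t n k (T q t n l u) = T q t n l (T q t n k u) := by
  funext i j
  by_cases h0 : j ≤ i ∨ n ≤ j
  · simp (disch := omega) only [T_g]
  have hi : i < k ∨ i = k ∨ i = k + 1 ∨ (k + 1 < i ∧ i < l) ∨ i = l ∨ i = l + 1 ∨ l + 1 < i := by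
    omega
  have hj : j < k ∨ j = k ∨ j = k + 1 ∨ (k + 1 < j ∧ j < l) ∨ j = l ∨ j = l + 1 ∨ l + 1 < j := by
    omega
  rcases hi with hi | hi | hi | hi | hi | hi | hi <;>
    rcases hj with hj | hj | hj | hj | hj | hj | hj <;>
    first
    | (exfalso; omega)
    | (simp (disch := omega) only [T_a, T_b, T_c, T_d, T_e, T_f, T_g]; done)
    | (simp (disch := omega) only [T_b, T_c, T_d, T_e, T_f, T_g]; ring)

theorem T_map {R' : Type*} [CommRing R'] (φ : R →+* R') :
    (fun i j => φ (T q t n k u i j)) = T (φ q) (φ t) n k (fun i j => φ (u i j)) := by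
  funext i j
  unfold T
  split_ifs <;> simp only [map_add, map_mul, map_sub, map_pow, map_one]

/-- The action of a positive word. -/
def TW (q t : R) (n : ℕ) : List ℕ → (ℕ → ℕ → R) → ℕ → ℕ → R
  | [], u => u
  | k :: w, u => T q t n k (TW q t n w u)

theorem TW_append (w w' : List ℕ) : TW q t n (w ++ w') u = TW q t n w (TW q t n w' u) := by
  induction w with
  | nil => rfl
  | cons k w ih => simp only [List.cons_append, TW, ih]

theorem TW_map {R' : Type*} [CommRing R'] (φ : R →+* R') (w : List ℕ) :
    (fun i j => φ (TW q t n w u i j)) = TW (φ q) (φ t) n w (fun i j => φ (u i j)) := by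
  induction w with
  | nil => rfl
  | cons k w ih => simp only [TW]; rw [T_map, ih]

/-- The indicator function of the pairs `i < j < n`. -/
def ind (R : Type*) [CommRing R] (n : ℕ) : ℕ → ℕ → R := fun i j => if i < j ∧ j < n then 1 else 0

theorem ind_map {R' : Type*} [CommRing R'] (φ : R →+* R') :
    (fun i j => φ (ind R n i j)) = ind R' n := by
  funext i j
  unfold ind
  split_ifs <;> simp

/-- The operator as a linear map. -/
def TL (q t : R) (n k : ℕ) : (ℕ → ℕ → R) →ₗ[R] (ℕ → ℕ → R) where
  toFun := T q t n k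
  map_add' u v := by
    funext i j
    simp only [T, Pi.add_apply]
    split_ifs <;> ring
  map_smul' c u := by
    funext i j
    simp only [T, Pi.smul_apply, smul_eq_mul, RingHom.id_apply]
    split_ifs <;> ring

/-- Functions supported on the pairs `i < j < n`. -/
def W (R : Type*) [CommRing R] (n : ℕ) : Submodule R (ℕ → ℕ → R) where
  carrier := {v | ∀ i j, j ≤ i ∨ n ≤ j → v i j = 0}
  add_mem' ha hb i j h := by simp only [Pi.add_apply, ha i j h, hb i j h, add_zero]
  zero_mem' _ _ _ := rfl
  smul_mem' c _ ha i j h := by simp only [Pi.smul_apply, ha i j h, smul_zero]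

theorem ind_mem : ind R n ∈ W R n := fun i j h => by
  unfold ind
  rw [if_neg (by omega)]

theorem TL_mem (v : ℕ → ℕ → R) (hv : v ∈ W R n) : TL q t n k v ∈ W R n := fun i j h => by
  change T q t n k v i j = 0
  rw [T_g (by omega)]
  exact hv i j h

/-- The Lawrence-Krammer operator on the finite-dimensional space. -/
def S (q t : R) (n k : ℕ) : Module.End R (W R n) := (TL q t n k).restrict TL_mem

theorem S_coe (v : W R n) : (S q t n k v : ℕ → ℕ → R) = T q t n k v := rfl

theorem S_braid : IsBraid (n - 1) (S q t n) where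
  braid i hi := by
    ext1 v
    apply Subtype.ext
    simp only [Module.End.mul_apply, S_coe]
    exact T_braid (by omega)
  comm i j hij hj := by
    ext1 v
    apply Subtype.ext
    simp only [Module.End.mul_apply, S_coe]
    exact T_comm hij (by omega)

theorem S_prod (w : List ℕ) (v : W R n) :
    (((w.map (S q t n)).prod v : W R n) : ℕ → ℕ → R) = TW q t n w v := by
  induction w with
  | nil => rfl
  | cons k w ih => simp only [List.map_cons, List.prod_cons, Module.End.mul_apply, S_coe, TW, ih]

/-- Restriction to the index set. -/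
def res (R : Type*) [CommRing R] (n : ℕ) :
    W R n →ₗ[R] ({p : Fin n × Fin n // p.1 < p.2} → R) where
  toFun v p := v.1 p.1.1 p.1.2
  map_add' _ _ := rfl
  map_smul' _ _ := rfl

theorem res_bij : Function.Bijective (res R n) := by
  constructor
  · intro v v' h
    apply Subtype.ext
    funext i j
    by_cases h0 : j ≤ i ∨ n ≤ j
    · rw [v.2 i j h0, v'.2 i j h0]
    · exact congrFun h ⟨(⟨i, by omega⟩, ⟨j, by omega⟩), by
        simp only [Fin.mk_lt_mk]; omega⟩
  · intro f
    refine ⟨⟨fun i j => if h : i < j ∧ j < n then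
      f ⟨(⟨i, by omega⟩, ⟨j, h.2⟩), by simp only [Fin.mk_lt_mk]; omega⟩ else 0, ?_⟩, ?_⟩
    · intro i j h
      exact dif_neg (by omega)
    · funext p
      exact dif_pos ⟨p.2, p.1.2.2⟩

end Ring

section Field
variable {K : Type*} [Field K] {q t : K} {n k : ℕ}

theorem finDim_W : FiniteDimensional K (W K n) :=
  (LinearEquiv.ofBijective (res K n) res_bij).symm.finiteDimensional

theorem finrank_W : Module.finrank K (W K n) = n.choose 2 := by
  rw [(LinearEquiv.ofBijective (res K n) res_bij).finrank_eq, Module.finrank_fintype_fun_eq_card,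
    Fintype.card_subtype, Fintype.card_product_filter_lt, Fintype.card_fin]

theorem S_isUnit (hq : q ≠ 0) (ht : t ≠ 0) (hk : k + 1 < n) : IsUnit (S q t n k) := by
  have : FiniteDimensional K (W K n) := finDim_W
  rw [LinearMap.isUnit_iff_ker_eq_bot, LinearMap.ker_eq_bot']
  intro v hv
  have h : ∀ i j, T q t n k v i j = 0 := fun i j => by
    rw [← S_coe, hv]; rfl
  have h1 : v.1 k (k + 1) = 0 := by
    have := h k (k + 1)
    rw [T_a rfl rfl hk] at this
    simpa [hq, ht] using this
  have h2 : ∀ j, k + 1 < j → j < n → v.1 (k + 1) j = 0 := fun j h2 h3 => by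
    have := h k j
    rw [T_b rfl h2 h3] at this
    simpa [h1] using this
  have h3 : ∀ i, i < k → v.1 i k = 0 := fun i hi => by
    have := h i (k + 1)
    rw [T_e hi rfl hk] at this
    simpa [h1] using this
  apply Subtype.ext
  funext i j
  change v.1 i j = 0
  by_cases h0 : j ≤ i ∨ n ≤ j
  · exact v.2 i j h0
  by_cases h4 : j < k ∨ k + 1 < i
  · have := h i j
    rwa [T_g (by omega)] at this
  have hc : (i = k ∧ j = k + 1) ∨ (i = k ∧ k + 1 < j) ∨ (i = k + 1 ∧ k + 1 < j) ∨
      (i < k ∧ j = k) ∨ (i < k ∧ j = k + 1) ∨ (i < k ∧ k + 1 < j) := by omega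
  rcases hc with ⟨rfl, rfl⟩ | ⟨rfl, hj⟩ | ⟨rfl, hj⟩ | ⟨hi, rfl⟩ | ⟨hi, rfl⟩ | ⟨hi, hj⟩
  · exact h1
  · have := h (i + 1) j
    rw [T_c rfl hj (by omega)] at this
    simpa [h2 j hj (by omega), hq] using this
  · exact h2 j hj (by omega)
  · exact h3 i hi
  · have := h i k
    rw [T_d hi rfl (by omega)] at this
    simpa [h3 i hi, hq] using this
  · have := h i j
    rw [T_f hi hj (by omega)] at this
    simpa [h1] using this

end Field

end Pool.Agent.MP_b64966_al.H65
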